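import Pool.Agent.Helper83_DPB.Stmts

/-!
Squad DPB (MP_e2cf1f_an): module BC, the Baire category crowding lemma.
-/

open Filter Topology Set

namespace Pool.Agent.Helper83_DPB.H66

/-- an initial segment of a point -/
def seg (x : Pt) (n : ℕ) : List Sym := List.ofFn fun i : Fin n => x i

theorem mem_cyl_seg (x y : Pt) (n : ℕ) : y ∈ cyl (seg x n) ↔ ∀ i < n, y i = x i := by
  simp only [cyl, seg, List.length_ofFn, List.getElem_ofFn, mem_ofPred_eq]

theorem cyl_seg_sub {U : Set Pt} (hU : IsOpen U) {x : Pt} (hx : x ∈ U) :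
    ∃ n, cyl (seg x n) ⊆ U := by
  obtain ⟨I, u, h1, h2⟩ := isOpen_pi_iff.1 hU x hx
  refine ⟨I.sup id + 1, fun y hy => h2 ?_⟩
  rw [mem_cyl_seg] at hy
  intro i hi
  have h3 : i < I.sup id + 1 := Nat.lt_succ_of_le (Finset.le_sup (f := id) hi)
  rw [hy i h3]
  exact (h1 i hi).2

theorem cyl_append (σ : List Sym) (s : Sym) : cyl (σ ++ [s]) ⊆ cyl σ := by
  intro x hx i hi
  have h1 := hx i (by simp; omega)
  rw [List.getElem_append_left hi] at h1
  exact h1

theorem crowd_step (w : LI Pt) (δ : ℝ) (hδ : 0 < δ) (hm : Measurable (w : Pt → ℂ))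
    (σ : List Sym) (F : Ultrafilter Pt) (hF : cyl σ ∈ F) (hr : ∀ U ∈ residual Pt, U ∈ F)
    (h : δ / 2 ≤ ‖LU F w‖) :
    ∃ τ : List Sym, cyl τ ⊆ cyl σ ∧
      {x : Pt | x ∈ cyl τ → δ / 3 < ‖(w : Pt → ℂ) x‖} ∈ residual Pt := by
  set E : Set Pt := {x : Pt | δ / 3 < ‖(w : Pt → ℂ) x‖} with hE
  have hEF : E ∈ F := by
    have h1 := (LU_spec F w).norm
    have h2 : δ / 3 < ‖LU F w‖ := by linarith
    exact h1 (Ioi_mem_nhds h2)
  have hEm : MeasurableSet E := measurableSet_lt measurable_const hm.norm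
  obtain ⟨V, hV, hEV⟩ := hEm.residualEq_isOpen
  have hN : {x : Pt | x ∈ E ↔ x ∈ V} ∈ residual Pt := by
    filter_upwards [hEV] with x hx
    exact Iff.of_eq hx
  have h3 : V ∩ cyl σ ∈ F := by
    filter_upwards [hr _ hN, hEF, hF] with x hx1 hx2 hx3
    exact ⟨hx1.1 hx2, hx3⟩
  obtain ⟨x0, hx0⟩ := F.nonempty_of_mem h3
  obtain ⟨n, hn⟩ := cyl_seg_sub (hV.inter (isOpen_cyl σ)) hx0
  refine ⟨seg x0 n, fun x hx => (hn hx).2, ?_⟩
  filter_upwards [hN] with x hx1 hx2
  exact hx1.2 (hn hx2).1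

theorem bc : BcStmt := by
  intro w δ hδ hm hjump r
  have key : ∃ (σ : List Sym) (j : Fin r → ℕ), StrictMono j ∧
      ∀ i, {x : Pt | x ∈ cyl σ → δ / 3 < ‖(w (j i) : Pt → ℂ) x‖} ∈ residual Pt := by
    induction r with
    | zero => exact ⟨[], Fin.elim0, fun a => a.elim0, fun a => a.elim0⟩
    | succ r ih =>
      obtain ⟨σ, j, hj, hres⟩ := ih
      obtain ⟨j0, hj0⟩ := hjump σ
      let J : ℕ := max j0 (Finset.univ.sup j + 1)
      obtain ⟨s, -, hs⟩ := hj0 J (le_max_left _ _)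
      have hcp : cyl σ ∈ pF σ := Filter.mem_of_superset (Pset_mem σ 0) fun x hx => hx.1
      have hcq : cyl σ ∈ qF (σ ++ [s]) :=
        Filter.mem_of_superset (Qset_mem (σ ++ [s]) 0) fun x hx => cyl_append σ s hx.1
      have hstep : ∃ τ : List Sym, cyl τ ⊆ cyl σ ∧
          {x : Pt | x ∈ cyl τ → δ / 3 < ‖(w J : Pt → ℂ) x‖} ∈ residual Pt := by
        by_cases hp : δ / 2 ≤ ‖LU (pF σ) (w J)‖
        · exact crowd_step (w J) δ hδ (hm J) σ (pF σ) hcp (fun U hU => residual_pF σ hU) hp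
        · refine crowd_step (w J) δ hδ (hm J) σ (qF (σ ++ [s])) hcq
            (fun U hU => residual_qF _ hU) ?_
          have := norm_sub_le (LU (qF (σ ++ [s])) (w J)) (LU (pF σ) (w J))
          rw [not_le] at hp
          linarith
      obtain ⟨τ, hτ, hτr⟩ := hstep
      refine ⟨τ, Fin.snoc j J, ?_, ?_⟩
      · intro a b hab
        refine Fin.lastCases ?_ (fun b' => ?_) b (motive := fun b => a < b →
          (Fin.snoc j J : Fin (r + 1) → ℕ) a < (Fin.snoc j J : Fin (r + 1) → ℕ) b) hab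
        · intro hab
          obtain ⟨a', rfl⟩ := Fin.exists_castSucc_eq.2 (ne_of_lt hab)
          rw [Fin.snoc_castSucc, Fin.snoc_last]
          have h1 : j a' ≤ Finset.univ.sup j := Finset.le_sup (Finset.mem_univ a')
          exact lt_of_lt_of_le (Nat.lt_succ_of_le h1) (le_max_right _ _)
        · intro hab
          have ha : a ≠ Fin.last r := ne_of_lt (lt_of_lt_of_le hab (Fin.le_last _))
          obtain ⟨a', rfl⟩ := Fin.exists_castSucc_eq.2 ha
          rw [Fin.snoc_castSucc, Fin.snoc_castSucc]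
          exact hj (Fin.castSucc_lt_castSucc_iff.1 hab)
      · intro i
        refine Fin.lastCases ?_ (fun i' => ?_) i (motive := fun i =>
          {x : Pt | x ∈ cyl τ → δ / 3 < ‖(w ((Fin.snoc j J : Fin (r + 1) → ℕ) i) : Pt → ℂ) x‖}
            ∈ residual Pt)
        · rw [Fin.snoc_last]
          exact hτr
        · rw [Fin.snoc_castSucc]
          filter_upwards [hres i'] with x hx1 hx2
          exact hx1 (hτ hx2)
  obtain ⟨σ, j, hj, hres⟩ := key
  refine ⟨j, hj, ?_⟩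
  have h1 : (⋂ i, {x : Pt | x ∈ cyl σ → δ / 3 < ‖(w (j i) : Pt → ℂ) x‖}) ∈ residual Pt :=
    Filter.iInter_mem.2 hres
  obtain ⟨x, hx1, hx2⟩ := (dense_of_mem_residual h1).inter_open_nonempty (cyl σ) (isOpen_cyl σ)
    ⟨extPt σ (Sym.mark 0), extPt_mem _ _⟩
  refine ⟨x, fun i => ?_⟩
  exact (mem_iInter.1 hx2 i hx1).le

end Pool.Agent.Helper83_DPB.H66
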