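import Pool.Agent.Helper83_DPB.Stmts

/-!
Squad DPB (MP_e2cf1f_an): module FLAT, flat blocks.
-/

open Filter Topology Set

namespace Pool.Agent.Helper83_DPB.H66F

/-- rational approximation of the direction of a real vector -/
theorem real_dir (S : Finset ℕ) (r : ℕ → ℝ) (hR : 0 < ∑ n ∈ S, r n ^ 2) :
    ∃ b : ℕ →₀ ℚ, (∀ n, b n ≠ 0 → n ∈ S ∧ r n ≠ 0) ∧
      (∀ n, |(b n : ℝ)| * Real.sqrt (∑ n ∈ S, r n ^ 2) ≤ |r n|) ∧
      (∑ n ∈ b.support, (b n) ^ 2) ≤ 1 ∧
      7 / 10 * Real.sqrt (∑ n ∈ S, r n ^ 2) ≤ ∑ n ∈ S, (b n : ℝ) * r n := by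
  set R : ℝ := Real.sqrt (∑ n ∈ S, r n ^ 2) with hRdef
  have hR0 : 0 < R := Real.sqrt_pos.2 hR
  have hR2 : R ^ 2 = ∑ n ∈ S, r n ^ 2 := Real.sq_sqrt hR.le
  have hq : ∀ n, ∃ q : ℚ, (r n = 0 → q = 0) ∧ |(q : ℝ)| * R ≤ |r n| ∧
      7 / 10 * r n ^ 2 ≤ (q : ℝ) * r n * R := by
    intro n
    rcases lt_trichotomy (r n) 0 with h | h | h
    · obtain ⟨q, h1, h2⟩ := exists_rat_btwn (show r n / R < 7 / 10 * (r n / R) by
        have : r n / R < 0 := div_neg_of_neg_of_pos h hR0
        linarith)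
      rw [div_lt_iff₀ hR0] at h1
      have h3 : (q : ℝ) * R < 7 / 10 * r n := by
        have := mul_lt_mul_of_pos_right h2 hR0
        rwa [mul_assoc, div_mul_cancel₀ _ hR0.ne'] at this
      refine ⟨q, fun h0 => absurd h0 h.ne, ?_, ?_⟩
      · have h4 : (q : ℝ) < 0 := by
          by_contra h5
          rw [not_lt] at h5
          have := mul_nonneg h5 hR0.le
          linarith
        rw [abs_of_neg h4, abs_of_neg h]
        linarith
      · nlinarith
    · exact ⟨0, fun _ => rfl, by simp, by simp [h]⟩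
    · obtain ⟨q, h1, h2⟩ := exists_rat_btwn (show 7 / 10 * (r n / R) < r n / R by
        have : 0 < r n / R := div_pos h hR0
        linarith)
      rw [lt_div_iff₀ hR0] at h2
      have h3 : 7 / 10 * r n < (q : ℝ) * R := by
        have := mul_lt_mul_of_pos_right h1 hR0
        rwa [mul_assoc, div_mul_cancel₀ _ hR0.ne'] at this
      refine ⟨q, fun h0 => absurd h0 h.ne', ?_, ?_⟩
      · have h4 : 0 < (q : ℝ) := by
          by_contra h5
          rw [not_lt] at h5
          have := mul_nonneg (neg_nonneg.2 h5) hR0.le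
          linarith
        rw [abs_of_pos h4, abs_of_pos h]
        linarith
      · nlinarith
  choose q hq0 hq1 hq2 using hq
  let b : ℕ →₀ ℚ := Finsupp.indicator S fun n _ => q n
  have hb : ∀ n, b n = if n ∈ S then q n else 0 := by
    intro n
    simp only [b, Finsupp.indicator_apply]
    split_ifs <;> rfl
  have hb1 : ∀ n, |(b n : ℝ)| * R ≤ |r n| := by
    intro n
    rw [hb]
    split_ifs
    · exact hq1 n
    · simp
  refine ⟨b, ?_, hb1, ?_, ?_⟩
  · intro n hn
    rw [hb] at hn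
    split_ifs at hn with h
    · exact ⟨h, fun h0 => hn (hq0 n h0)⟩
    · exact absurd rfl hn
  · have hsub : b.support ⊆ S := by
      intro n hn
      rw [Finsupp.mem_support_iff, hb] at hn
      by_contra h
      rw [if_neg h] at hn
      exact hn rfl
    have h1 : ((∑ n ∈ b.support, (b n) ^ 2 : ℚ) : ℝ) * R ^ 2 ≤ 1 * R ^ 2 := by
      push_cast
      rw [Finset.sum_mul, one_mul, hR2]
      refine (Finset.sum_le_sum (f := fun n => (b n : ℝ) ^ 2 * ∑ n ∈ S, r n ^ 2)
        (g := fun n => r n ^ 2) fun n _ => ?_).trans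
        (Finset.sum_le_sum_of_subset_of_nonneg hsub fun n _ _ => sq_nonneg _)
      rw [← hR2, ← mul_pow, ← sq_abs, ← sq_abs (r n), abs_mul, abs_of_pos hR0]
      exact pow_le_pow_left₀ (by positivity) (hb1 n) 2
    have h2 := le_of_mul_le_mul_right h1 (by positivity)
    exact_mod_cast h2
  · have h1 : 7 / 10 * R * R ≤ (∑ n ∈ S, (b n : ℝ) * r n) * R := by
      rw [mul_assoc, ← sq, hR2, Finset.mul_sum, Finset.sum_mul]
      refine Finset.sum_le_sum fun n hn => ?_
      rw [hb, if_pos hn]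
      exact hq2 n
    exact le_of_mul_le_mul_right h1 hR0

theorem adm_of (z : ℕ →₀ ℂ) (r : ℕ → ℝ) (c : ℝ) (hc : 0 < c) (M : ℕ)
    (hM : ∀ n ∈ z.support, M ≤ n) (hr : ∀ n, |r n| ≤ ‖z n‖)
    (hz : c ^ 2 / 2 ≤ ∑ n ∈ z.support, r n ^ 2) (hD : ∀ n, ‖z n‖ * (M + 1) * 2 ≤ c) :
    ∃ b : ℕ →₀ ℚ, adm M b ∧ c / 4 ≤ ∑ n ∈ z.support, (b n : ℝ) * r n := by
  have h0 : 0 < ∑ n ∈ z.support, r n ^ 2 := lt_of_lt_of_le (by positivity) hz
  obtain ⟨b, h1, h2, h3, h4⟩ := real_dir z.support r h0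
  set R : ℝ := Real.sqrt (∑ n ∈ z.support, r n ^ 2) with hR
  have hR0 : 0 < R := Real.sqrt_pos.2 h0
  have hR2 : R ^ 2 = ∑ n ∈ z.support, r n ^ 2 := Real.sq_sqrt h0.le
  have hRc : 7 / 10 * c ≤ R := by
    rw [hR]
    apply Real.le_sqrt_of_sq_le
    nlinarith [sq_nonneg c]
  refine ⟨b, ⟨fun n hn => hM n (h1 n (Finsupp.mem_support_iff.1 hn)).1, h3, fun n => ?_⟩, ?_⟩
  · have h5 : |(b n : ℝ)| * ((M : ℝ) + 1) * R ≤ 1 * R := by
      have h6 := h2 n
      have h7 := hD n
      have h8 := hr n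
      have hM1 : (0 : ℝ) ≤ (M : ℝ) + 1 := by positivity
      calc |(b n : ℝ)| * ((M : ℝ) + 1) * R = |(b n : ℝ)| * R * ((M : ℝ) + 1) := by ring
        _ ≤ |r n| * ((M : ℝ) + 1) := mul_le_mul_of_nonneg_right h6 hM1
        _ ≤ ‖z n‖ * ((M : ℝ) + 1) := mul_le_mul_of_nonneg_right h8 hM1
        _ ≤ c / 2 := by linarith
        _ ≤ 1 * R := by linarith
    have h6 := le_of_mul_le_mul_right h5 hR0
    have h7 : (((|b n| * ((M : ℚ) + 1) : ℚ)) : ℝ) ≤ ((1 : ℚ) : ℝ) := by
      push_cast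
      exact h6
    exact_mod_cast h7
  · linarith

theorem exists_b (z : ℕ →₀ ℂ) (c : ℝ) (hc : 0 < c) (M : ℕ) (hM : ∀ n ∈ z.support, M ≤ n)
    (hz : c ^ 2 ≤ ∑ n ∈ z.support, ‖z n‖ ^ 2) (hD : ∀ n, ‖z n‖ * (M + 1) * 2 ≤ c) :
    ∃ b : ℕ →₀ ℚ, adm M b ∧ c / 4 ≤ ‖∑ n ∈ z.support, z n * ((b n : ℚ) : ℂ)‖ := by
  have hsum : ∑ n ∈ z.support, ‖z n‖ ^ 2
      = ∑ n ∈ z.support, (z n).re ^ 2 + ∑ n ∈ z.support, (z n).im ^ 2 := by
    rw [← Finset.sum_add_distrib]
    refine Finset.sum_congr rfl fun n _ => ?_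
    rw [← Complex.normSq_eq_norm_sq, Complex.normSq_apply]
    ring
  by_cases h : c ^ 2 / 2 ≤ ∑ n ∈ z.support, (z n).re ^ 2
  · obtain ⟨b, hb, h1⟩ := adm_of z (fun n => (z n).re) c hc M hM
      (fun n => Complex.abs_re_le_norm _) h hD
    refine ⟨b, hb, h1.trans ?_⟩
    refine le_trans ?_ ((le_abs_self _).trans (Complex.abs_re_le_norm _))
    rw [Complex.re_sum]
    refine le_of_eq (Finset.sum_congr rfl fun n _ => ?_)
    rw [show ((b n : ℚ) : ℂ) = (((b n : ℚ) : ℝ) : ℂ) by push_cast; rfl, Complex.re_mul_ofReal]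
    ring
  · obtain ⟨b, hb, h1⟩ := adm_of z (fun n => (z n).im) c hc M hM
      (fun n => Complex.abs_im_le_norm _) (by linarith) hD
    refine ⟨b, hb, h1.trans ?_⟩
    refine le_trans ?_ ((le_abs_self _).trans (Complex.abs_im_le_norm _))
    rw [Complex.im_sum]
    refine le_of_eq (Finset.sum_congr rfl fun n _ => ?_)
    rw [show ((b n : ℚ) : ℂ) = (((b n : ℚ) : ℝ) : ℂ) by push_cast; rfl, Complex.im_mul_ofReal]
    ring

theorem prg_l2 (M : ℕ) (b : ℕ →₀ ℚ) (hb : adm M b) (v : VV) :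
    prg M (Sym.l2 b 0) v = ∑ n ∈ v.1.support, v.1 n * ((b n : ℚ) : ℂ) := by
  unfold prg
  have h2 : (v.2.sum fun n a => a * cf2 M (Sym.l2 b 0) n) = 0 := by
    rw [Finsupp.sum]
    exact Finset.sum_eq_zero fun n _ => by simp [cf2]
  rw [h2, add_zero, Finsupp.sum]
  refine Finset.sum_congr rfl fun n _ => ?_
  simp only [cf1]
  rw [if_pos hb]

theorem prg_c0 (M n : ℕ) (hn : M ≤ n) (v : VV) : prg M (Sym.c0 n 0) v = v.2 n := by
  unfold prg
  have h1 : (v.1.sum fun n' a => a * cf1 M (Sym.c0 n 0) n') = 0 := by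
    rw [Finsupp.sum]
    exact Finset.sum_eq_zero fun n _ => by simp [cf1]
  rw [h1, zero_add, Finsupp.sum]
  by_cases h : n ∈ v.2.support
  · rw [Finset.sum_eq_single n]
    · simp [cf2, hn]
    · intro n' _ hne
      simp only [cf2]
      rw [if_neg (fun h => hne h.1.symm), mul_zero]
    · exact fun h' => absurd h h'
  · rw [Finsupp.notMem_support_iff.1 h]
    refine Finset.sum_eq_zero fun n' hn' => ?_
    simp only [cf2]
    rw [if_neg, mul_zero]
    rintro ⟨rfl, -⟩
    exact h hn'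

theorem flat : FlatStmt := by
  intro v m c hc hm hsup hbd hnb
  obtain ⟨C, hC⟩ := hbd
  have hC0 : 0 ≤ C := (hC 0).1
  by_cases hinf : ∃ᶠ j in atTop, ∃ n, c < ‖(v j).2 n‖
  · obtain ⟨φ, hφ, hφ2⟩ := Filter.extraction_of_frequently_atTop hinf
    refine ⟨fun i => {φ i}, fun _ => 1, fun i => ⟨φ i, by simp⟩, ?_, fun _ => one_pos,
      fun _ => le_rfl, fun i => by simp, fun M => ⟨M, fun i hi => ?_⟩⟩
    · intro i j hj j' hj'
      rw [Finset.mem_singleton] at hj hj'
      rw [hj, hj']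
      exact hφ (Nat.lt_succ_self i)
    · obtain ⟨n, hn⟩ := hφ2 i
      refine ⟨Sym.c0 n 0, trivial, ?_⟩
      have h1 : (v (φ i)).2 n ≠ 0 := by
        intro h0
        rw [h0, norm_zero] at hn
        linarith
      have h2 : M ≤ n := by
        have h3 := ((hsup (φ i)).2 n h1).1
        have h4 : φ i ≤ m (φ i) := hm.id_le _
        have h5 : i ≤ φ i := hφ.id_le _
        omega
      rw [prg_c0 M n h2, Finset.sum_singleton]
      have h6 : (((1 : ℝ) : ℂ) • v (φ i)).2 n = (v (φ i)).2 n := by simp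
      rw [h6]
      linarith
  · rw [Filter.not_frequently, Filter.eventually_atTop] at hinf
    obtain ⟨J0, hJ0⟩ := hinf
    have hbig : ∀ j ≥ J0, c ^ 2 ≤ ∑ n ∈ (v j).1.support, ‖(v j).1 n‖ ^ 2 := by
      intro j hj
      by_contra h
      rw [not_le] at h
      exact hnb j ⟨hc.le, h.le, fun n => not_lt.1 fun hn => hJ0 j hj ⟨n, hn⟩⟩
    have hcoord : ∀ j n, ‖(v j).1 n‖ ≤ C := by
      intro j n
      by_cases h : n ∈ (v j).1.support
      · have h1 : ‖(v j).1 n‖ ^ 2 ≤ C ^ 2 :=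
          (Finset.single_le_sum (f := fun n => ‖(v j).1 n‖ ^ 2) (fun _ _ => sq_nonneg _) h).trans
            (hC j).2.1
        exact le_of_sq_le_sq h1 hC0
      · rw [Finsupp.notMem_support_iff.1 h, norm_zero]
        exact hC0
    have hdis : ∀ j j' n, (v j).1 n ≠ 0 → (v j').1 n ≠ 0 → j = j' := by
      intro j j' n h1 h2
      have h3 := (hsup j).1 n h1
      have h4 := (hsup j').1 n h2
      rcases lt_trichotomy j j' with h | h | h
      · have := hm.monotone (show j + 1 ≤ j' from h)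
        omega
      · exact h
      · have := hm.monotone (show j' + 1 ≤ j from h)
        omega
    let F : ℕ → Finset ℕ := fun i => Finset.Ico (J0 + i ^ 2) (J0 + (i + 1) ^ 2)
    have hcard : ∀ i, ((F i).card : ℝ) = 2 * i + 1 := by
      intro i
      have : (F i).card = 2 * i + 1 := by
        simp only [F, Nat.card_Ico]
        have : (i + 1) ^ 2 = i ^ 2 + (2 * i + 1) := by ring
        omega
      rw [this]
      push_cast
      ring
    let t : ℕ → ℝ := fun i => 1 / Real.sqrt (2 * i + 1)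
    have hs : ∀ i : ℕ, (0 : ℝ) < 2 * i + 1 := fun i => by positivity
    have ht0 : ∀ i, 0 < t i := fun i => one_div_pos.2 (Real.sqrt_pos.2 (hs i))
    have ht2 : ∀ i, t i ^ 2 * (2 * i + 1) = 1 := by
      intro i
      simp only [t]
      rw [div_pow, one_pow, Real.sq_sqrt (hs i).le]
      exact one_div_mul_cancel (hs i).ne'
    refine ⟨F, t, fun i => ?_, ?_, ht0, fun i => ?_, fun i => ?_, fun M => ?_⟩
    · refine ⟨J0 + i ^ 2, Finset.mem_Ico.2 ⟨le_rfl, ?_⟩⟩
      have : (i + 1) ^ 2 = i ^ 2 + (2 * i + 1) := by ring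
      omega
    · intro i j hj j' hj'
      rw [Finset.mem_Ico] at hj hj'
      exact lt_of_lt_of_le hj.2 hj'.1
    · have h1 : t i ^ 2 ≤ 1 ^ 2 := by
        rw [one_pow, ← ht2 i]
        have h2 : (0 : ℝ) ≤ t i ^ 2 := sq_nonneg _
        have h3 : (0 : ℝ) ≤ (i : ℝ) := Nat.cast_nonneg i
        nlinarith [mul_nonneg h2 h3]
      exact le_of_sq_le_sq h1 zero_le_one
    · rw [hcard, ht2]
    · obtain ⟨K, hK⟩ := exists_nat_ge ((2 * (C + 1) * (M + 1) / c) ^ 2)
      refine ⟨max M K, fun i hi => ?_⟩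
      have hiM : M ≤ i := (le_max_left _ _).trans hi
      have hiK : K ≤ i := (le_max_right _ _).trans hi
      set v' : VV := ∑ j ∈ F i, (t i : ℂ) • v j with hv'
      have hval : ∀ n, v'.1 n = ∑ j ∈ F i, (t i : ℂ) * (v j).1 n := by
        intro n
        rw [hv', Prod.fst_sum, Finsupp.finsetSum_apply]
        rfl
      have hone : ∀ j ∈ F i, ∀ n, (v j).1 n ≠ 0 → v'.1 n = (t i : ℂ) * (v j).1 n := by
        intro j hj n hn
        rw [hval, Finset.sum_eq_single j]
        · intro j' _ hne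
          have : (v j').1 n = 0 := by
            by_contra h
            exact hne (hdis j' j n h hn)
          rw [this, mul_zero]
        · exact fun h => absurd hj h
      have hex : ∀ n, v'.1 n ≠ 0 → ∃ j ∈ F i, (v j).1 n ≠ 0 := by
        intro n hn
        by_contra h
        push Not at h
        apply hn
        rw [hval]
        exact Finset.sum_eq_zero fun j hj => by rw [h j hj, mul_zero]
      have hti : (t i : ℂ) ≠ 0 := by exact_mod_cast (ht0 i).ne'
      have hnt : ‖(t i : ℂ)‖ = t i := by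
        rw [Complex.norm_real, Real.norm_eq_abs, abs_of_pos (ht0 i)]
      have hsupp : ∀ n ∈ v'.1.support, M ≤ n := by
        intro n hn
        obtain ⟨j, hj, hjn⟩ := hex n (Finsupp.mem_support_iff.1 hn)
        have h1 := ((hsup j).1 n hjn).1
        have h2 : j ≤ m j := hm.id_le j
        rw [Finset.mem_Ico] at hj
        have h3 : i ≤ i ^ 2 := Nat.le_self_pow (by norm_num) i
        omega
      have hsq : c ^ 2 ≤ ∑ n ∈ v'.1.support, ‖v'.1 n‖ ^ 2 := by
        classical
        have h1 : (F i).biUnion (fun j => (v j).1.support) ⊆ v'.1.support := by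
          intro n hn
          rw [Finset.mem_biUnion] at hn
          obtain ⟨j, hj, hjn⟩ := hn
          rw [Finsupp.mem_support_iff] at hjn ⊢
          rw [hone j hj n hjn]
          exact mul_ne_zero hti hjn
        refine le_trans ?_ (Finset.sum_le_sum_of_subset_of_nonneg h1 fun n _ _ => sq_nonneg _)
        rw [Finset.sum_biUnion]
        · have h2 : ∀ j ∈ F i, t i ^ 2 * c ^ 2 ≤ ∑ n ∈ (v j).1.support, ‖v'.1 n‖ ^ 2 := by
            intro j hj
            have h3 : ∑ n ∈ (v j).1.support, ‖v'.1 n‖ ^ 2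
                = t i ^ 2 * ∑ n ∈ (v j).1.support, ‖(v j).1 n‖ ^ 2 := by
              rw [Finset.mul_sum]
              refine Finset.sum_congr rfl fun n hn => ?_
              rw [hone j hj n (Finsupp.mem_support_iff.1 hn), norm_mul, hnt, mul_pow]
            rw [h3]
            refine mul_le_mul_of_nonneg_left (hbig j ?_) (sq_nonneg _)
            rw [Finset.mem_Ico] at hj
            omega
          refine le_trans ?_ (Finset.sum_le_sum h2)
          rw [Finset.sum_const, nsmul_eq_mul, hcard]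
          have h4 := ht2 i
          have : (2 * (i : ℝ) + 1) * (t i ^ 2 * c ^ 2) = (t i ^ 2 * (2 * i + 1)) * c ^ 2 := by ring
          rw [this, h4, one_mul]
        · intro j _ j' _ hne
          rw [Function.onFun, Finset.disjoint_left]
          intro n h1 h2
          exact hne (hdis j j' n (Finsupp.mem_support_iff.1 h1) (Finsupp.mem_support_iff.1 h2))
      have htK : t i * (2 * (C + 1) * (M + 1)) ≤ c := by
        have h1 : (2 * (C + 1) * (M + 1) / c) ^ 2 ≤ 2 * (i : ℝ) + 1 := by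
          have : (K : ℝ) ≤ i := by exact_mod_cast hiK
          have : (0 : ℝ) ≤ i := Nat.cast_nonneg i
          linarith
        have h2 : 2 * (C + 1) * (M + 1) / c ≤ Real.sqrt (2 * i + 1) := Real.le_sqrt_of_sq_le h1
        rw [div_le_iff₀ hc] at h2
        simp only [t]
        rw [one_div, inv_mul_le_iff₀ (Real.sqrt_pos.2 (hs i))]
        exact h2
      have hD : ∀ n, ‖v'.1 n‖ * (M + 1) * 2 ≤ c := by
        intro n
        have hM1 : (0 : ℝ) ≤ (M : ℝ) + 1 := by positivity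
        have h1 : ‖v'.1 n‖ ≤ t i * (C + 1) := by
          by_cases h0 : v'.1 n = 0
          · rw [h0, norm_zero]
            have := ht0 i
            positivity
          · obtain ⟨j, hj, hjn⟩ := hex n h0
            rw [hone j hj n hjn, norm_mul, hnt]
            refine mul_le_mul_of_nonneg_left ?_ (ht0 i).le
            linarith [hcoord j n]
        calc ‖v'.1 n‖ * (M + 1) * 2 ≤ t i * (C + 1) * (M + 1) * 2 := by
              have := mul_le_mul_of_nonneg_right h1 hM1
              linarith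
          _ = t i * (2 * (C + 1) * (M + 1)) := by ring
          _ ≤ c := htK
      obtain ⟨b, hb, h1⟩ := exists_b v'.1 c hc M hsupp hsq hD
      refine ⟨Sym.l2 b 0, trivial, ?_⟩
      rw [prg_l2 M b hb]
      exact h1

end Pool.Agent.Helper83_DPB.H66F
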